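import Pool.Agent.helper74.FD.SpecF

/-!
# Project FD (MP_07c750_an), row PHI (helper66)
-/

set_option autoImplicit false

open MeasureTheory Filter Set

namespace Pool.Agent.FD

theorem PHI_swap (f : ℝ → ℝ → ℝ) (hf : Continuous (Function.uncurry f)) (a b c d : ℝ) :
    ∫ x in a..b, ∫ y in c..d, f x y = ∫ y in c..d, ∫ x in a..b, f x y := by
  apply intervalIntegral_intervalIntegral_swap
  have h1 : IntegrableOn (Function.uncurry f) (uIcc a b ×ˢ uIcc c d) :=
    hf.continuousOn.integrableOn_compact (isCompact_uIcc.prod isCompact_uIcc)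
  exact h1.mono_set (prod_mono uIoc_subset_uIcc uIoc_subset_uIcc)

theorem PHI_proof : PHI_stmt := by
  intro F ψ σ α β hF hψ hσ hψ0 hψ1 hαβ
  have hg : Continuous fun x : ℝ => ‖F x‖ ^ 2 := hF.norm.pow 2
  have hg0 : ∀ x, 0 ≤ ‖F x‖ ^ 2 := fun x => by positivity
  have hψ2 : Continuous fun y : ℝ => ψ y ^ 2 := hψ.pow 2
  have hsupp : ∀ h : ℝ → ℝ, (Function.support fun y => h y * ψ y ^ 2) ⊆ Ioc (-σ) σ := by
    intro h y hy
    have h1 : ψ y ≠ 0 := by
      intro h0
      apply hy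
      simp [h0]
    have h2 : |y| < σ := by
      by_contra h3
      exact h1 (hψ0 y (not_lt.1 h3))
    rw [abs_lt] at h2
    exact ⟨h2.1, h2.2.le⟩
  have hH : ∀ h : ℝ → ℝ, ∫ y, h y * ψ y ^ 2 = ∫ y in (-σ)..σ, h y * ψ y ^ 2 := fun h =>
    (intervalIntegral.integral_eq_integral_of_support_subset (hsupp h)).symm
  have hone : ∫ y in (-σ)..σ, ψ y ^ 2 = 1 := by
    have h1 := hH fun _ => 1
    simp only [one_mul] at h1
    rw [← h1, hψ1]
  have hfun : (fun x => ∫ y : ℝ, ‖F (x - y)‖ ^ 2 * ψ y ^ 2) =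
      fun x => ∫ y in (-σ)..σ, ‖F (x - y)‖ ^ 2 * ψ y ^ 2 := by
    funext x
    exact hH fun y => ‖F (x - y)‖ ^ 2
  have hcont2 : Continuous (Function.uncurry fun x y : ℝ => ‖F (x - y)‖ ^ 2 * ψ y ^ 2) := by
    have h1 : Continuous fun p : ℝ × ℝ => ‖F (p.1 - p.2)‖ ^ 2 * ψ p.2 ^ 2 :=
      (hg.comp (continuous_fst.sub continuous_snd)).mul (hψ2.comp continuous_snd)
    exact h1
  have hcont3 : Continuous (Function.uncurry fun y x : ℝ => ‖F (x - y)‖ ^ 2) := by
    have h1 : Continuous fun p : ℝ × ℝ => ‖F (p.2 - p.1)‖ ^ 2 :=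
      hg.comp (continuous_snd.sub continuous_fst)
    exact h1
  have hinner : Continuous fun y : ℝ => ∫ x in α..β, ‖F (x - y)‖ ^ 2 :=
    intervalIntegral.continuous_parametric_intervalIntegral_of_continuous' hcont3 α β
  have hall : ∫ x in α..β, (∫ y : ℝ, ‖F (x - y)‖ ^ 2 * ψ y ^ 2) =
      ∫ y in (-σ)..σ, (∫ x in α..β, ‖F (x - y)‖ ^ 2) * ψ y ^ 2 := by
    rw [hfun, PHI_swap _ hcont2]
    refine intervalIntegral.integral_congr fun y _ => ?_
    exact intervalIntegral.integral_mul_const _ _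
  have hsub : ∀ y : ℝ, ∫ x in α..β, ‖F (x - y)‖ ^ 2 = ∫ x in (α - y)..(β - y), ‖F x‖ ^ 2 := fun y =>
    intervalIntegral.integral_comp_sub_right (fun x => ‖F x‖ ^ 2) y
  have hσσ : -σ ≤ σ := by linarith
  have hI : IntervalIntegrable (fun y => (∫ x in α..β, ‖F (x - y)‖ ^ 2) * ψ y ^ 2) volume (-σ) σ :=
    (hinner.mul hψ2).intervalIntegrable _ _
  refine ⟨?_, ?_, ?_⟩
  · rw [hfun]
    exact intervalIntegral.continuous_parametric_intervalIntegral_of_continuous' hcont2 _ _
  · rw [hall]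
    set A := ∫ x in (α - σ)..(β + σ), ‖F x‖ ^ 2 with hA
    have h1 : ∫ y in (-σ)..σ, (∫ x in α..β, ‖F (x - y)‖ ^ 2) * ψ y ^ 2 ≤ ∫ y in (-σ)..σ, A * ψ y ^ 2 := by
      apply intervalIntegral.integral_mono_on hσσ hI ((hψ2.const_mul A).intervalIntegrable _ _)
      intro y hy
      apply mul_le_mul_of_nonneg_right _ (by positivity)
      rw [hsub, hA]
      apply intervalIntegral.integral_mono_interval
      · linarith [hy.2]
      · linarith
      · linarith [hy.1]
      · exact ae_of_all _ hg0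
      · exact hg.intervalIntegrable _ _
    refine h1.trans (le_of_eq ?_)
    rw [intervalIntegral.integral_const_mul, hone, mul_one]
  · intro h2
    rw [hall]
    set A := ∫ x in (α + σ)..(β - σ), ‖F x‖ ^ 2 with hA
    have h1 : ∫ y in (-σ)..σ, A * ψ y ^ 2 ≤ ∫ y in (-σ)..σ, (∫ x in α..β, ‖F (x - y)‖ ^ 2) * ψ y ^ 2 := by
      apply intervalIntegral.integral_mono_on hσσ ((hψ2.const_mul A).intervalIntegrable _ _) hI
      intro y hy
      apply mul_le_mul_of_nonneg_right _ (by positivity)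
      rw [hsub, hA]
      apply intervalIntegral.integral_mono_interval
      · linarith [hy.1]
      · exact h2
      · linarith [hy.2]
      · exact ae_of_all _ hg0
      · exact hg.intervalIntegrable _ _
    refine le_trans (le_of_eq ?_) h1
    rw [intervalIntegral.integral_const_mul, hone, mul_one]

end Pool.Agent.FD
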